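import Mathlib
import Pool.Agent.Q209.BI

/-!
# Barely independent families over `ω₁` and over the continuum

Let `κ` be a cardinal of uncountable cofinality. There is a barely independent family over `κ` if
and only if there is a sequence of length `κ` of subsets of `ω` such that every infinite subset of
`ω` is split by all but fewer than `κ` of them; then `𝔰 ≤ κ` and `cf κ ≤ 𝔯`. So if `ω₁ < 𝔰` and
`𝔯 < cf 𝔠` then there is neither a barely independent family over `ω₁` nor one over `𝔠`. In the
model of Blass and Shelah, `𝔯 = ω₁ < 𝔰 = 𝔠 = ω₂`.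
-/

set_option autoImplicit false

namespace Pool.Agent.Results.MP_e8be47_lc.NoneOverBoth

open Cardinal Q209.BI

theorem aleph0_lt_cof_one : ℵ₀ < (aleph 1).ord.cof := by
  rw [isRegular_aleph_one.cof_ord, ← aleph_zero]
  exact aleph_lt_aleph.2 one_pos

theorem aleph0_lt_cof_continuum : ℵ₀ < continuum.ord.cof := by
  have h := lt_cof_ord_power (a := ℵ₀) (b := 2) le_rfl (by norm_num)
  rwa [two_power_aleph0] at h

theorem result :
    (∀ κ : Cardinal.{0}, ℵ₀ < κ.ord.cof →
      ((ExistsOver κ ↔ EventuallySplitting κ) ∧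
        (ExistsOver κ → splittingNumber ≤ κ ∧ κ.ord.cof ≤ reapingNumber))) ∧
    (aleph 1 < splittingNumber → reapingNumber < continuum.ord.cof →
      ¬ ExistsOver (aleph 1) ∧ ¬ ExistsOver continuum) := by
  have key : ∀ κ : Cardinal.{0}, ℵ₀ < κ.ord.cof →
      ((ExistsOver κ ↔ EventuallySplitting κ) ∧
        (ExistsOver κ → splittingNumber ≤ κ ∧ κ.ord.cof ≤ reapingNumber)) := by
    intro κ hκ
    refine ⟨iff_eventually hκ, fun h => ?_⟩
    have h1 := (iff_eventually hκ).1 h
    exact ⟨splitting_le h1, cof_le_reaping (hκ.le.trans (Ordinal.cof_ord_le κ)) h1⟩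
  refine ⟨key, fun hs hr => ⟨fun h => ?_, fun h => ?_⟩⟩
  · exact hs.not_ge ((key _ aleph0_lt_cof_one).2 h).1
  · exact hr.not_ge ((key _ aleph0_lt_cof_continuum).2 h).2

end Pool.Agent.Results.MP_e8be47_lc.NoneOverBoth
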